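import Pool.Agent.Lib.FAC.B_TAIL
import Pool.Agent.Lib.FAC.B_EXP

/-! Tails of one series and their expansion along windows, with no rationality assumed. -/

open Finset Filter Polynomial
open scoped Nat Topology

noncomputable section

namespace Pool.Agent.Lib.LI90

open Pool.Agent.Lib.FAC
open Pool.Agent.Lib.ESC (Comb)

/-- The normalised tails of a series. -/
structure Tl (g : ℕ → ℤ) (P : ℤ[X]) (c : ℕ) (r : ℕ → ℝ) : Prop where
  summ : Summable fun n : ℕ => (g n : ℝ) / ∏ i ∈ Icc 1 n, ev P i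
  zero : ∑' n : ℕ, (g n : ℝ) / ∏ i ∈ Icc 1 n, ev P i = g 0 + r 0
  eq : ∀ M, r M * ev P (M + 1) = g (M + 1) + r (M + 1)
  le : ∃ B : ℝ, ∀ᶠ M : ℕ in atTop, |r M| ≤ B * ((M : ℝ) + 1) ^ c

open TAIL in
theorem tl_exists (g : ℕ → ℤ) (P : ℤ[X]) (c : ℕ) (hB : Base P)
    (hg : ∀ n : ℕ, 1 ≤ n → |(g n : ℝ)| ≤ (n : ℝ) ^ c) : ∃ r, Tl g P c r := by
  obtain ⟨n0, h2⟩ := two_le hB.1
  set Q : ℕ → ℝ := fun M => ∏ i ∈ Icc 1 M, ev P i with hQ
  have Qne : ∀ M, Q M ≠ 0 := fun M => prod_ne_zero_iff.2 fun i hi => hB.2 i (mem_Icc.1 hi).1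
  have Qsucc : ∀ M, Q (M + 1) = Q M * ev P (M + 1) := fun M =>
    prod_Icc_succ_top (Nat.le_add_left 1 M) _
  have Qgrow : ∀ M, n0 ≤ M → ∀ j, |Q M| * 2 ^ (j + 1) ≤ |Q (j + (M + 1))| := by
    intro M hM j
    induction j with
    | zero =>
      rw [zero_add, zero_add, Qsucc, pow_one, abs_mul]
      exact mul_le_mul_of_nonneg_left (h2 _ (by omega)) (abs_nonneg _)
    | succ j ih =>
      rw [show j + 1 + (M + 1) = j + (M + 1) + 1 by omega, Qsucc, pow_succ, ← mul_assoc, abs_mul]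
      exact mul_le_mul ih (h2 _ (by omega)) (by norm_num) (abs_nonneg _)
  set t : ℕ → ℝ := fun n => (g n : ℝ) / Q n with ht
  have tle : ∀ M, n0 ≤ M → ∀ j, ‖Q M * t (j + (M + 1))‖ ≤
      ((M : ℝ) + 1) ^ c * (((j : ℝ) + 1) ^ c / 2 ^ (j + 1)) := by
    intro M hM j
    have h3 : |(g (j + (M + 1)) : ℝ)| ≤ ((M : ℝ) + 1) ^ c * ((j : ℝ) + 1) ^ c := by
      refine (hg _ (by omega)).trans ?_
      rw [← mul_pow]
      refine pow_le_pow_left₀ (by positivity) ?_ _
      push_cast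
      nlinarith [mul_nonneg (Nat.cast_nonneg M : (0 : ℝ) ≤ M) (Nat.cast_nonneg j : (0 : ℝ) ≤ j)]
    simp only [ht]
    rw [Real.norm_eq_abs, abs_mul, abs_div, ← mul_div_assoc, ← mul_div_assoc,
      div_le_div_iff₀ (abs_pos.2 (Qne _)) (by positivity)]
    calc |Q M| * |(g (j + (M + 1)) : ℝ)| * 2 ^ (j + 1)
        = |(g (j + (M + 1)) : ℝ)| * (|Q M| * 2 ^ (j + 1)) := by ring
      _ ≤ _ := mul_le_mul h3 (Qgrow M hM j) (by positivity) (by positivity)
  have hs0 : Summable fun j => Q n0 * t (j + (n0 + 1)) :=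
    Summable.of_norm_bounded ((summ c).mul_left _) (tle n0 le_rfl)
  have hs : Summable t :=
    (summable_nat_add_iff (n0 + 1)).1 ((summable_mul_left_iff (Qne n0)).1 hs0)
  have hsM : ∀ M, Summable fun j => t (j + M) := fun M => (summable_nat_add_iff M).2 hs
  set T : ℕ → ℝ := fun M => Q M * ∑' j, t (j + (M + 1)) with hT
  have Trec : ∀ M, T M * ev P (M + 1) = g (M + 1) + T (M + 1) := by
    intro M
    have e := (hsM (M + 1)).tsum_eq_zero_add
    have e' : (fun j => t (j + 1 + (M + 1))) = fun j => t (j + (M + 1 + 1)) := by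
      funext j
      rw [show j + 1 + (M + 1) = j + (M + 1 + 1) by omega]
    rw [e', zero_add] at e
    simp only [hT]
    rw [e, mul_right_comm, ← Qsucc, mul_add]
    simp only [ht]
    rw [mul_div_cancel₀ _ (Qne _)]
  have T0 : ∑' n, t n = g 0 + T 0 := by
    rw [hs.tsum_eq_zero_add]
    simp [hT, ht, hQ]
  refine ⟨T, hs, T0, Trec, ∑' j : ℕ, ((j : ℝ) + 1) ^ c / 2 ^ (j + 1),
    eventually_atTop.2 ⟨n0, fun M hM => ?_⟩⟩
  simp only [hT]
  rw [← tsum_mul_left, mul_comm, ← tsum_mul_left, ← Real.norm_eq_abs]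
  exact tsum_of_norm_bounded ((summ c).mul_left _).hasSum (tle M hM)

theorem tail_comb {ι : Type*} [Fintype ι] (g : ι → ℕ → ℤ) (P : ℤ[X]) (c : ℕ) (r : ι → ℕ → ℝ)
    (h : ∀ i, Tl (g i) P c (r i)) (a : ι → ℤ) (x : ℚ)
    (hx0 : (x : ℝ) = ∑' n : ℕ, ((∑ i, a i * g i n : ℤ) : ℝ) / ∏ j ∈ Icc 1 n, ev P j) :
    Tail (fun n => ∑ i, a i * g i n) P c fun M => ∑ i, (a i : ℝ) * r i M := by
  have hx : (x : ℝ) = ∑ i, (a i : ℝ) * ∑' n : ℕ, (g i n : ℝ) / ∏ j ∈ Icc 1 n, ev P j := by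
    simp only [← tsum_mul_left]
    rw [hx0, ← Summable.tsum_finsetSum fun i _ => (h i).summ.mul_left _]
    refine tsum_congr fun n => ?_
    push_cast
    rw [sum_div]
    exact sum_congr rfl fun i _ => mul_div_assoc _ _ _
  have Trec : ∀ M, (∑ i, (a i : ℝ) * r i M) * ev P (M + 1) =
      ((∑ i, a i * g i (M + 1) : ℤ) : ℝ) + ∑ i, (a i : ℝ) * r i (M + 1) := by
    intro M
    push_cast
    rw [sum_mul, ← sum_add_distrib]
    refine sum_congr rfl fun i _ => ?_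
    rw [mul_assoc, (h i).eq M, mul_add]
  refine ⟨⟨x.den, x.den_pos, fun M => ?_⟩, Trec, ?_⟩
  · induction M with
    | zero =>
      refine ⟨x.num - x.den * ∑ i, a i * g i 0, ?_⟩
      have e : (x.den : ℝ) * x = x.num := by exact_mod_cast Rat.den_mul_eq_num x
      have e2 : (x : ℝ) = ∑ i, (a i : ℝ) * g i 0 + ∑ i, (a i : ℝ) * r i 0 := by
        rw [hx, ← sum_add_distrib]
        exact sum_congr rfl fun i _ => by rw [(h i).zero, mul_add]
      push_cast
      rw [← e, e2]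
      ring
    | succ M ih =>
      obtain ⟨z, hz⟩ := ih
      refine ⟨z * P.eval ((M + 1 : ℕ) : ℤ) - x.den * ∑ i, a i * g i (M + 1), ?_⟩
      have e := Trec M
      rw [Int.cast_sub, Int.cast_mul, Int.cast_mul, ← hz, mul_assoc, ← ev, e, Int.cast_natCast]
      ring
  · choose B hB using fun i => (h i).le
    refine ⟨∑ i, |(a i : ℝ)| * B i, (eventually_all.2 hB).mono fun M hM => ?_⟩
    rw [sum_mul]
    refine (abs_sum_le_sum_abs _ _).trans (sum_le_sum fun i _ => ?_)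
    rw [abs_mul, mul_assoc]
    exact mul_le_mul_of_nonneg_left (hM i) (abs_nonneg _)

theorem expand {g : ℕ → ℤ} {P : ℤ[X]} {c : ℕ} {r : ℕ → ℝ} (hB : Base P) (h : Tl g P c r)
    (M s L : ℕ) (hs : s ≤ L) :
    r (M + s) = ∑ t ∈ Ioc s L, (g (M + t) : ℝ) / ∏ i ∈ Ioc s t, ev P (M + i) +
      r (M + L) / ∏ i ∈ Ioc s L, ev P (M + i) := by
  induction L, hs using Nat.le_induction with
  | base => simp
  | succ L hL ih =>
    have h2 : r (M + L) * ev P (M + (L + 1)) = g (M + (L + 1)) + r (M + (L + 1)) := h.eq (M + L)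
    have hb : ev P (M + (L + 1)) ≠ 0 := hB.2 _ (by omega)
    rw [Finset.sum_Ioc_succ_top hL, Finset.prod_Ioc_succ_top hL, ih, add_assoc, ← add_div, ← h2,
      mul_div_mul_right _ _ hb]

theorem exp_one {g : ℕ → ℤ} {k C : ℕ} {P : ℤ[X]} {c : ℕ} {r : ℕ → ℝ} (hg : Good g k C)
    (hB : Base P) (h : Tl g P c r) {Y D : ℕ} {U : Finset ℕ} (hC : Comb Y D U)
    (d L : ℕ) (γ : ℕ → ℕ → ℤ) (w : ℕ) (hdL : d ≤ L) (hL : L ≤ 3 * Y) :
    ∑ u ∈ U, ∑ s ∈ range (d + 1), γ u s * r (D / u * w + s) =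
      ∑ v ∈ D.divisors, eta g P D U d L γ v w * g (D / v * w + 1) +
        ∑ u ∈ U, ∑ s ∈ range (d + 1), γ u s * (r (D / u * w + L) / den P D u s L w) := by
  have hD : D ≠ 0 := by have := hC.big; omega
  have key : ∀ u ∈ U, ∑ s ∈ range (d + 1), (γ u s : ℝ) * r (D / u * w + s) =
      ∑ v ∈ D.divisors, (∑ t ∈ Icc 1 L with u * t = v, ∑ s ∈ range (d + 1) with s < t,
          (g t : ℝ) * γ u s / den P D u s t w) * g (D / v * w + 1) +
        ∑ s ∈ range (d + 1), γ u s * (r (D / u * w + L) / den P D u s L w) := by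
    intro u hu
    have hdv : ∀ t ∈ Icc 1 L, u * t ^ 2 ∣ D := fun t ht =>
      hC.dvd u hu t (mem_Icc.1 ht).1 ((mem_Icc.1 ht).2.trans hL)
    have hmap : ∀ t ∈ Icc 1 L, u * t ∈ D.divisors := fun t ht =>
      Nat.mem_divisors.2 ⟨Dvd.dvd.trans ⟨t, by ring⟩ (hdv t ht), hD⟩
    have hs : ∑ v ∈ D.divisors, (∑ t ∈ Icc 1 L with u * t = v, ∑ s ∈ range (d + 1) with s < t,
          (g t : ℝ) * γ u s / den P D u s t w) * g (D / v * w + 1) =
        ∑ t ∈ Icc 1 L, (∑ s ∈ range (d + 1) with s < t,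
          (g t : ℝ) * γ u s / den P D u s t w) * g (D / (u * t) * w + 1) := by
      rw [← Finset.sum_fiberwise_of_maps_to hmap]
      refine Finset.sum_congr rfl fun v _ => ?_
      rw [Finset.sum_mul]
      refine Finset.sum_congr rfl fun t ht => ?_
      rw [(mem_filter.1 ht).2]
    have hsw : ∑ t ∈ Icc 1 L, (∑ s ∈ range (d + 1) with s < t,
          (g t : ℝ) * γ u s / den P D u s t w) * g (D / (u * t) * w + 1) =
        ∑ s ∈ range (d + 1), ∑ t ∈ Ioc s L,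
          (g t : ℝ) * γ u s / den P D u s t w * g (D / (u * t) * w + 1) := by
      simp only [Finset.sum_mul]
      refine Finset.sum_comm' fun t s => ?_
      simp only [mem_Icc, mem_filter, mem_range, mem_Ioc]
      omega
    rw [hs, hsw, ← Finset.sum_add_distrib]
    refine Finset.sum_congr rfl fun s hs' => ?_
    have hsL : s ≤ L := by
      have := mem_range.1 hs'
      omega
    rw [expand hB h (D / u * w) s L hsL, mul_add, Finset.mul_sum]
    refine congrArg (· + _) (Finset.sum_congr rfl fun t ht => ?_)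
    have ht' : t ∈ Icc 1 L := by
      have := mem_Ioc.1 ht
      rw [mem_Icc]
      omega
    have hu0 : 0 < u := by
      rcases Nat.eq_zero_or_pos u with h0 | h0
      · have := hdv t ht'
        rw [h0, zero_mul, zero_dvd_iff] at this
        exact absurd this hD
      · exact h0
    rw [EXP.split hg D u t w hu0 (mem_Icc.1 ht').1 (hdv t ht'), den]
    push_cast
    ring
  rw [Finset.sum_congr rfl key, Finset.sum_add_distrib, Finset.sum_comm]
  refine congrArg (· + _) (Finset.sum_congr rfl fun v _ => ?_)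
  rw [FAC.eta, Finset.sum_mul]

theorem exp_comb {ι : Type*} [Fintype ι] {g : ι → ℕ → ℤ} {k : ι → ℕ} {C : ℕ} {P : ℤ[X]} {c : ℕ}
    {r : ι → ℕ → ℝ} (hg : ∀ i, Good (g i) (k i) C) (hB : Base P) (h : ∀ i, Tl (g i) P c (r i))
    (a : ι → ℤ) {Y D : ℕ} {U : Finset ℕ} (hC : Comb Y D U)
    (d L : ℕ) (γ : ℕ → ℕ → ℤ) (w : ℕ) (hdL : d ≤ L) (hL : L ≤ 3 * Y) :
    ∑ u ∈ U, ∑ s ∈ range (d + 1), γ u s * ∑ i, (a i : ℝ) * r i (D / u * w + s) =
      ∑ i, (a i : ℝ) * ∑ v ∈ D.divisors, eta (g i) P D U d L γ v w * g i (D / v * w + 1) +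
        ∑ u ∈ U, ∑ s ∈ range (d + 1),
          γ u s * ((∑ i, (a i : ℝ) * r i (D / u * w + L)) / den P D u s L w) := by
  have sw : ∀ F : ι → ℕ → ℕ → ℝ, ∑ u ∈ U, ∑ s ∈ range (d + 1), γ u s * ∑ i, (a i : ℝ) * F i u s =
      ∑ i, (a i : ℝ) * ∑ u ∈ U, ∑ s ∈ range (d + 1), γ u s * F i u s := by
    intro F
    simp only [mul_sum]
    rw [sum_comm (s := univ)]
    refine sum_congr rfl fun u _ => ?_
    rw [sum_comm]
    exact sum_congr rfl fun i _ => sum_congr rfl fun s _ => by ring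
  have e : ∀ u s, (∑ i, (a i : ℝ) * r i (D / u * w + L)) / den P D u s L w =
      ∑ i, (a i : ℝ) * (r i (D / u * w + L) / den P D u s L w) := by
    intro u s
    rw [sum_div]
    exact sum_congr rfl fun i _ => mul_div_assoc _ _ _
  simp only [e]
  rw [sw fun i u s => r i (D / u * w + s), sw fun i u s => r i (D / u * w + L) / den P D u s L w,
    ← sum_add_distrib]
  refine sum_congr rfl fun i _ => ?_
  rw [exp_one (hg i) hB (h i) hC d L γ w hdL hL, mul_add]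

end Pool.Agent.Lib.LI90
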