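import Pool.Agent.Lib.FAC.B_LEAD
import Pool.Agent.Lib.FAC.B_RAT
import Pool.Agent.Lib.FAC.B_POLY

/-! One integer combination of windows whose ray coefficients decay for all functions at once. -/

open Finset Filter Polynomial
open scoped Nat Topology

noncomputable section

namespace Pool.Agent.Lib.LI90

open Pool.Agent.Lib.FAC
open Pool.Agent.Lib.ESC (Comb)

theorem ker {α β : Type*} (I : Finset α) (J : Finset β) (A : β → α → ℤ) (h : J.card < I.card) :
    ∃ γ : α → ℤ, (∃ i ∈ I, γ i ≠ 0) ∧ ∀ j ∈ J, ∑ i ∈ I, A j i * γ i = 0 := by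
  classical
  have h1 : ¬ LinearIndependent ℤ (fun (i : I) (j : J) => A j i) := fun h2 => by
    have h3 := h2.fintype_card_le_finrank
    rw [Module.finrank_fintype_fun_eq_card, Fintype.card_coe, Fintype.card_coe] at h3
    omega
  obtain ⟨g, hg, i, hi⟩ := Fintype.not_linearIndependent_iff.1 h1
  refine ⟨fun x => if hx : x ∈ I then g ⟨x, hx⟩ else 0, ⟨i, i.2, by simpa using hi⟩,
    fun j hj => ?_⟩
  have h4 := congrFun hg ⟨j, hj⟩
  rw [Finset.sum_apply] at h4
  rw [← Finset.sum_coe_sort]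
  refine Eq.trans (Finset.sum_congr rfl fun x _ => ?_) h4
  simp [mul_comm]

open LEAD in
theorem lin {ι : Type*} [Fintype ι] (g : ι → ℕ → ℤ) (P : ℤ[X]) (c d Y D : ℕ) (U : Finset ℕ)
    (L : ℕ) (hB : Base P) (hU : Comb Y D U) (hd : 12 * ((c + 1) * Fintype.card ι) ≤ d)
    (hY : d + (c + 1) ≤ Y) : ∃ γ : ℕ → ℕ → ℤ, (∃ u ∈ U, ∃ s ≤ d, γ u s ≠ 0) ∧ ∀ i v, Tendsto
      (fun w : ℕ => (w : ℝ) ^ c * eta (g i) P D U d L γ v w) atTop (𝓝 0) := by
  classical
  have hD : 0 < D := by have := hU.big; omega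
  obtain ⟨Q, Num, hQ, hN⟩ := st_POLY P D L hB hD
  have hUD : ∀ u ∈ U, u ∈ D.divisors := fun u hu => by
    have := hU.dvd u hu 1 le_rfl (by omega)
    exact Nat.mem_divisors.2 ⟨by simpa using this, hD.ne'⟩
  set V := image₂ (fun u t => u * t) U (Icc 1 Y) with hV
  obtain ⟨γ', ⟨i0, hi0, hγ0⟩, hker⟩ := ker (U ×ˢ range (d + 1))
    ((V ×ˢ range (c + 1)) ×ˢ (univ : Finset ι))
    (fun j i => ∑ t ∈ Icc 1 L with i.1 * t = j.1.1,
      if i.2 < t then g j.2 t * (Num i.1 i.2 t).coeff (Q.natDegree - j.1.2) else 0) (by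
      rw [card_product, card_product, card_product, card_range, card_range, card_univ]
      have h1 : V.card ≤ 12 * U.card := hU.card
      have h2 := hU.ne.card_pos
      have h3 := Nat.mul_le_mul_right ((c + 1) * Fintype.card ι) h1
      have h4 := Nat.mul_le_mul_left U.card hd
      nlinarith)
  let γ : ℕ → ℕ → ℤ := fun u s => γ' (u, s)
  have heta : ∀ j v w, eta (g j) P D U d L γ v w = ev (NN (g j) U d L γ Num v) w / ev Q w := by
    intro j v w
    simp only [FAC.eta, NN, ev_sum, sum_div, ev_C_mul]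
    refine sum_congr rfl fun u hu => sum_congr rfl fun t ht => sum_congr rfl fun s hs => ?_
    have ht' := (mem_Icc.1 (mem_filter.1 ht).1).2
    have hs' := (mem_filter.1 hs).2
    have := (hN u (hUD u hu) s t hs'.le ht').2.2 w
    rw [mul_div_assoc _ (ev (Num u s t) w), ← this]
    push_cast
    ring
  have hco : ∀ j v i, Q.natDegree ≤ i + c → (NN (g j) U d L γ Num v).coeff i = 0 := by
    intro j v i hi
    simp only [NN, finsetSum_coeff, coeff_C_mul]
    by_cases h : v ∈ V ∧ i ≤ Q.natDegree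
    · have h1 := hker ((v, Q.natDegree - i), j)
        (mem_product.2 ⟨mem_product.2 ⟨h.1,
          mem_range.2 (show Q.natDegree - i < c + 1 by omega)⟩, mem_univ _⟩)
      rw [sum_product] at h1
      refine Eq.trans (sum_congr rfl fun u hu => ?_) h1
      simp only [sum_mul]
      rw [sum_comm]
      refine sum_congr rfl fun t ht => ?_
      rw [sum_filter]
      refine sum_congr rfl fun s hs => ?_
      rw [Nat.sub_sub_self h.2]
      split_ifs
      · simp only [γ]
        ring
      · simp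
    · refine sum_eq_zero fun u hu => sum_eq_zero fun t ht => sum_eq_zero fun s hs => ?_
      have ht' := mem_Icc.1 (mem_filter.1 ht).1
      have hs' := (mem_filter.1 hs).2
      have hs2 := mem_range.1 (mem_filter.1 hs).1
      have h2 := (hN u (hUD u hu) s t hs'.le ht'.2).2.1
      have h3 : t - s ≤ P.natDegree * (t - s) := Nat.le_mul_of_pos_left _ hB.1
      have h4 : v ∉ V → Y < t := fun hv => by
        by_contra hc
        exact hv ((mem_filter.1 ht).2 ▸ mem_image₂_of_mem hu (mem_Icc.2 ⟨ht'.1, by omega⟩))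
      have h5 : (Num u s t).natDegree < i := by
        by_cases hv : v ∈ V
        · have : ¬ i ≤ Q.natDegree := fun h' => h ⟨hv, h'⟩
          omega
        · have := h4 hv
          omega
      rw [coeff_eq_zero_of_natDegree_lt h5, mul_zero]
  refine ⟨γ, ⟨i0.1, (mem_product.1 hi0).1, i0.2,
    Nat.lt_succ_iff.1 (mem_range.1 (mem_product.1 hi0).2), hγ0⟩, fun j v => ?_⟩
  simp only [heta]
  refine (st_RAT _ Q c hQ).1 ?_
  by_contra hc
  push Not at hc
  exact leadingCoeff_ne_zero.2 hc.1 (hco j v _ hc.2)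

end Pool.Agent.Lib.LI90
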