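import Pool.Agent.Lib.FAC.B_CLASS
import Pool.Agent.Lib.FAC.B_SIZE
import Pool.Agent.Lib.FAC.B_ROUGH
import Pool.Agent.Lib.FAC.B_TAV

/-! Residue classes with one prescribed factor, and independence of multiplicative functions. -/

open Finset Filter
open scoped Nat Topology

noncomputable section

namespace Pool.Agent.Lib.LI90

open Pool.Agent.Lib.FAC

/-- A positive number all of whose prime factors exceed `N`. -/
def Rough (N m : ℕ) : Prop := 0 < m ∧ ∀ q, q.Prime → q ∣ m → N < q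

theorem root (m a : ℕ) (hm : 0 < m) (ha : a.Coprime m) :
    ∃ c s : ℕ, a * c + 1 = m * (1 + m * s) := by
  have hp2 : m ^ 2 ≠ 0 := pow_ne_zero 2 hm.ne'
  obtain ⟨c, hc⟩ := Nat.exists_mul_mod_eq_of_coprime (m - 1) (ha.pow_right 2) hp2
  have hlt : m - 1 < m ^ 2 := by
    have h2 : m ≤ m ^ 2 := Nat.le_self_pow (by norm_num) m
    omega
  have hc' : a * c % m ^ 2 = m - 1 := by
    have h := hc.2
    rwa [Nat.mod_eq_of_lt hlt] at h
  refine ⟨c, a * c / m ^ 2, ?_⟩
  have h3 := Nat.mod_add_div (a * c) (m ^ 2)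
  rw [hc'] at h3
  have h4 : m * (1 + m * (a * c / m ^ 2)) = m + m ^ 2 * (a * c / m ^ 2) := by ring
  rw [h4]
  omega

theorem exR (m y : ℕ) : ∃ R : ℕ, 0 < R ∧ R.Coprime m ∧
    ∀ q, q.Prime → q ≤ y → ¬ q ∣ m → q ∣ R := by
  refine ⟨∏ q ∈ (Icc 1 y).filter (fun q => q.Coprime m), q, ?_, ?_, ?_⟩
  · exact prod_pos fun q hq => (mem_Icc.1 (mem_filter.1 hq).1).1
  · exact Nat.Coprime.prod_left fun q hq => (mem_filter.1 hq).2
  · intro q hq hqy hne
    exact dvd_prod_of_mem (fun q => q)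
      (mem_filter.2 ⟨mem_Icc.2 ⟨hq.one_le, hqy⟩, hq.coprime_iff_not_dvd.2 hne⟩)

theorem core (D m v0 y : ℕ) (hm : Rough D m) (hv0 : v0 ∈ D.divisors) (hy0 : 0 < y) :
    ∃ᶠ w in atTop, ∃ n : ℕ, D / v0 * w + 1 = m * n ∧ m.Coprime n ∧
      S n ≤ ((D.divisors.card : ℝ) + 1) / y ∧
      ∀ v ∈ D.divisors, v ≠ v0 → S (D / v * w + 1) ≤ ((D.divisors.card : ℝ) + 1) / y := by
  obtain ⟨R, hR0, hpR, hqR⟩ := exR m y
  have hpos : ∀ v ∈ D.divisors, 0 < D / v := fun v hv =>
    Nat.div_pos (Nat.divisor_le hv) (Nat.pos_of_mem_divisors hv)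
  have ha0 : (D / v0 * R).Coprime m := by
    refine Nat.Coprime.mul_left ?_ hpR
    refine Nat.coprime_of_dvd fun q hq h1 h2 => ?_
    have h3 := Nat.le_of_dvd (hpos v0 hv0) h1
    have h4 := hm.2 q hq h2
    have h5 := Nat.div_le_self D v0
    omega
  obtain ⟨c, s, hcs⟩ := root m (D / v0 * R) hm.1 ha0
  have hco : ∀ a : ℕ, Nat.Coprime (a * c + 1) a := by
    intro a
    simp
  have h1 := st_ROUGH st_TAV D.divisors (fun v => if v = v0 then 1 + m * s else D / v * R * c + 1)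
    (fun v => if v = v0 then D / v0 * R * m else D / v * R * m ^ 2) y hy0 (by
    intro v hv
    by_cases h : v = v0
    · simp only [h, if_true]
      refine ⟨by omega, Nat.Coprime.mul_right ?_ (by simp), fun q hq hqy => ?_⟩
      · exact Nat.Coprime.coprime_dvd_left ⟨m, by rw [hcs]; ring⟩ (hco (D / v0 * R))
      · by_cases hqp : q ∣ m
        · exact Dvd.dvd.mul_left hqp _
        · exact Dvd.dvd.mul_right (Dvd.dvd.mul_left (hqR q hq hqy hqp) _) _
    · simp only [h, if_false]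
      refine ⟨by omega, Nat.Coprime.mul_right (hco _) (Nat.Coprime.pow_right 2 ?_),
        fun q hq hqy => ?_⟩
      · refine Nat.coprime_of_dvd fun p hp hd hpm => h ?_
        have hlt : ∀ v, D / v < p := fun v => lt_of_le_of_lt (Nat.div_le_self D v) (hm.2 p hp hpm)
        have h2 : p ∣ D / v0 * (R * c) + 1 := by
          rw [← mul_assoc, hcs]
          exact Dvd.dvd.mul_right hpm _
        have h3 : p ∣ D / v * (R * c) + 1 := by rwa [← mul_assoc]
        have h4 := CLASS.same p _ _ _ hp (hlt v) (hlt v0) h3 h2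
        have h5 := Nat.mul_div_cancel' (Nat.dvd_of_mem_divisors hv)
        have h6 := Nat.mul_div_cancel' (Nat.dvd_of_mem_divisors hv0)
        rw [h4] at h5
        exact Nat.eq_of_mul_eq_mul_right (hpos v0 hv0) (h5.trans h6.symm)
      · by_cases hqp : q ∣ m
        · exact Dvd.dvd.mul_left (hqp.trans (dvd_pow_self m (by norm_num))) _
        · exact Dvd.dvd.mul_right (Dvd.dvd.mul_left (hqR q hq hqy hqp) _) _)
  have ht : Tendsto (fun j : ℕ => R * (c + m ^ 2 * j)) atTop atTop := by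
    refine tendsto_atTop_mono (fun j => ?_) tendsto_id
    have h2 : j ≤ m ^ 2 * j := Nat.le_mul_of_pos_left j (pow_pos hm.1 2)
    have h3 : c + m ^ 2 * j ≤ R * (c + m ^ 2 * j) := Nat.le_mul_of_pos_left _ hR0
    simp only [id]
    omega
  refine ht.frequently (h1.mono fun j hj => ⟨1 + m * s + D / v0 * R * m * j, ?_, ?_, ?_, ?_⟩)
  · have : D / v0 * (R * (c + m ^ 2 * j)) + 1 =
        (D / v0 * R * c + 1) + D / v0 * R * m ^ 2 * j := by ring
    rw [this, hcs]
    ring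
  · have : 1 + m * s + D / v0 * R * m * j = 1 + m * (s + D / v0 * R * j) := by ring
    rw [this]
    simp
  · simpa only [if_true] using hj v0 hv0
  · intro v hv h
    have h2 : D / v * (R * (c + m ^ 2 * j)) + 1 =
        D / v * R * c + 1 + D / v * R * m ^ 2 * j := by ring
    rw [h2]
    simpa only [h, if_false] using hj v hv

theorem cls {ι : Type*} [Fintype ι] {g : ι → ℕ → ℤ} {k : ι → ℕ} {C : ℕ}
    (hg : ∀ i, Good (g i) (k i) C) (D m v0 : ℕ) (hm : Rough D m) (hv0 : v0 ∈ D.divisors)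
    (ε : ℝ) (hε : 0 < ε) : ∃ᶠ w in atTop, ∀ i, ∀ v ∈ D.divisors,
      |G (g i) (k i) (D / v * w + 1) - if v = v0 then G (g i) (k i) m else 1| ≤ ε := by
  set K : ℝ := 1 + ∑ i, |G (g i) (k i) m| with hK
  have hs : 0 ≤ ∑ i, |G (g i) (k i) m| := sum_nonneg fun i _ => abs_nonneg _
  have hK1 : 1 ≤ K := by linarith
  have hKi : ∀ i, |G (g i) (k i) m| ≤ K := fun i => by
    have := single_le_sum (f := fun i => |G (g i) (k i) m|) (fun i _ => abs_nonneg _) (mem_univ i)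
    linarith
  obtain ⟨y, hy0, -, hy⟩ := CLASS.pick C D.divisors.card 0 (ε / K) (by positivity)
  refine (core D m v0 y hm hv0 hy0).mono fun w ⟨n, h1, h2, h3, h4⟩ i v hv => ?_
  by_cases h : v = v0
  · have hn : 1 ≤ n := by
      rcases Nat.eq_zero_or_pos n with h0 | h0
      · rw [h0, mul_zero] at h1
        omega
      · exact h0
    have h5 := CLASS.close st_SIZE (hg i) n hn _ _ h3 hy
    rw [if_pos h, h, h1, CLASS.G_mul' (hg i) _ _ h2, ← mul_sub_one, abs_mul]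
    calc _ ≤ K * (ε / K) := mul_le_mul (hKi i) h5 (abs_nonneg _) (by linarith)
      _ = ε := by field_simp
  · rw [if_neg h]
    exact (CLASS.close st_SIZE (hg i) _ (by omega) _ _ (h4 v hv h) hy).trans
      (div_le_self hε.le hK1)

theorem dedekind {κ : Type*} (F : κ → ℕ → ℝ) (h1 : ∀ o, F o 1 = 1)
    (hm : ∀ o m n, m.Coprime n → F o (m * n) = F o m * F o n)
    (hs : ∀ o o', o ≠ o' → ∀ N, ∃ p a, N < p ∧ p.Prime ∧ F o (p ^ a) ≠ F o' (p ^ a))
    (T : Finset κ) : ∀ (l : κ → ℝ) (N : ℕ), (∀ m, Rough N m → ∑ o ∈ T, l o * F o m = 0) →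
      ∀ o ∈ T, l o = 0 := by
  classical
  induction T using Finset.induction_on with
  | empty => simp
  | insert j T hj ih =>
    intro l N h
    have key : ∀ o ∈ T, l o = 0 := by
      intro o ho
      obtain ⟨p, a, hN, hp, hne⟩ := hs o j (fun e => hj (e ▸ ho)) N
      have h2 := ih (fun o' => l o' * (F o' (p ^ a) - F j (p ^ a))) p (fun m hr => ?_) o ho
      · exact (mul_eq_zero.1 h2).resolve_right (sub_ne_zero.2 hne)
      have hco : m.Coprime (p ^ a) := Nat.Coprime.pow_right a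
        (hp.coprime_iff_not_dvd.2 fun hd => lt_irrefl _ (hr.2 p hp hd)).symm
      have h3 := h m ⟨hr.1, fun q hq hd => hN.trans (hr.2 q hq hd)⟩
      have h4 := h (m * p ^ a) ⟨Nat.mul_pos hr.1 (pow_pos hp.pos a), fun q hq hd => by
        rcases (Nat.Prime.dvd_mul hq).1 hd with h5 | h5
        · exact hN.trans (hr.2 q hq h5)
        · rw [(Nat.prime_dvd_prime_iff_eq hq hp).1 (hq.dvd_of_dvd_pow h5)]
          exact hN⟩
      rw [sum_insert hj] at h3 h4
      simp only [hm _ _ _ hco] at h4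
      have h5 : ∑ o' ∈ T, l o' * (F o' (p ^ a) - F j (p ^ a)) * F o' m =
          ∑ o' ∈ T, l o' * (F o' m * F o' (p ^ a)) - (∑ o' ∈ T, l o' * F o' m) * F j (p ^ a) := by
        rw [sum_mul, ← sum_sub_distrib]
        exact sum_congr rfl fun o' _ => by ring
      rw [h5]
      linear_combination h4 - F j (p ^ a) * h3
    have h6 := h 1 ⟨one_pos, fun q hq hd => absurd (Nat.dvd_one.1 hd) hq.one_lt.ne'⟩
    rw [sum_insert hj, sum_eq_zero fun o ho => by rw [key o ho, zero_mul], h1, add_zero,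
      mul_one] at h6
    intro o ho
    rcases mem_insert.1 ho with h7 | h7
    · rw [h7, h6]
    · exact key o h7

theorem sum_lim {α : Type*} (V : Finset α) (μ F : α → ℕ → ℝ) (l τ : α → ℝ) (ρ : ℝ)
    (hμ : ∀ v ∈ V, Tendsto (μ v) atTop (𝓝 (l v)))
    (h0 : Tendsto (fun w => ∑ v ∈ V, μ v w * F v w) atTop (𝓝 ρ))
    (h : ∀ ε : ℝ, 0 < ε → ∃ᶠ w in atTop, ∀ v ∈ V, |F v w - τ v| ≤ ε) :
    ∑ v ∈ V, l v * τ v = ρ := by
  have hA : Tendsto (fun w => ∑ v ∈ V, μ v w * τ v) atTop (𝓝 (∑ v ∈ V, l v * τ v)) :=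
    tendsto_finsetSum _ fun v hv => (hμ v hv).mul_const _
  have hB : Tendsto (fun w => ∑ v ∈ V, |μ v w|) atTop (𝓝 (∑ v ∈ V, |l v|)) :=
    tendsto_finsetSum _ fun v hv => (hμ v hv).abs
  have key : ∀ ε : ℝ, 0 < ε → |ρ - ∑ v ∈ V, l v * τ v| ≤ ε * ∑ v ∈ V, |l v| := by
    intro ε hε
    have h1 := (hB.const_mul ε).sub (h0.sub hA).abs
    have h2 : ∃ᶠ w in atTop, (ε * ∑ v ∈ V, |μ v w|) -
        |∑ v ∈ V, μ v w * F v w - ∑ v ∈ V, μ v w * τ v| ∈ Set.Ici (0 : ℝ) := by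
      refine (h ε hε).mono fun w hw => ?_
      rw [Set.mem_Ici, sub_nonneg, ← sum_sub_distrib, mul_sum]
      refine (abs_sum_le_sum_abs _ _).trans (sum_le_sum fun v hv => ?_)
      rw [← mul_sub, abs_mul, mul_comm]
      exact mul_le_mul_of_nonneg_right (hw v hv) (abs_nonneg _)
    have h3 := isClosed_Ici.mem_of_frequently_of_tendsto h2 h1
    rw [Set.mem_Ici, sub_nonneg] at h3
    exact h3
  have hB0 : 0 ≤ ∑ v ∈ V, |l v| := sum_nonneg fun v _ => abs_nonneg _
  refine (sub_eq_zero.1 (abs_nonpos_iff.1 (le_of_forall_pos_le_add fun δ hδ => ?_))).symm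
  have h4 := key (δ / (∑ v ∈ V, |l v| + 1)) (by positivity)
  refine h4.trans ?_
  rw [zero_add, div_mul_eq_mul_div, div_le_iff₀ (by positivity)]
  nlinarith

theorem ind {ι : Type*} [Fintype ι] {g : ι → ℕ → ℤ} {k : ι → ℕ} {C : ℕ}
    (hg : ∀ i, Good (g i) (k i) C)
    (hne : ∀ i N, ∃ p a, N < p ∧ p.Prime ∧ G (g i) (k i) (p ^ a) ≠ 1)
    (hsep : ∀ i j, i ≠ j → ∀ N, ∃ p a, N < p ∧ p.Prime ∧
      G (g i) (k i) (p ^ a) ≠ G (g j) (k j) (p ^ a))
    (D : ℕ) (hD : 0 < D) (μ : ι × ℕ → ℕ → ℝ) (l : ι × ℕ → ℝ) (ρ : ℝ)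
    (hμ : ∀ x ∈ univ ×ˢ D.divisors, Tendsto (μ x) atTop (𝓝 (l x)))
    (h0 : Tendsto (fun w => ∑ x ∈ univ ×ˢ D.divisors,
      μ x w * G (g x.1) (k x.1) (D / x.2 * w + 1)) atTop (𝓝 ρ)) :
    (∀ x ∈ univ ×ˢ D.divisors, l x = 0) ∧ ρ = 0 := by
  classical
  have G1 : ∀ i, G (g i) (k i) 1 = 1 := fun i => by simp [G, (hg i).one]
  have R1 : Rough D 1 := ⟨one_pos, fun q hq hd => absurd (Nat.dvd_one.1 hd) hq.one_lt.ne'⟩
  have rel : ∀ v0 ∈ D.divisors, ∀ m, Rough D m → ∑ x ∈ univ ×ˢ D.divisors,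
      l x * (if x.2 = v0 then G (g x.1) (k x.1) m else 1) = ρ := fun v0 hv0 m hm =>
    sum_lim _ μ (fun x w => G (g x.1) (k x.1) (D / x.2 * w + 1)) l _ ρ hμ h0 fun ε hε =>
      (cls hg D m v0 hm hv0 ε hε).mono fun w hw x hx => hw x.1 x.2 (mem_product.1 hx).2
  have main : ∀ x ∈ univ ×ˢ D.divisors, l x = 0 := by
    rintro ⟨i0, v0⟩ hx
    have hv0 : v0 ∈ D.divisors := (mem_product.1 hx).2
    have rel2 : ∀ m, Rough D m → ∑ i, l (i, v0) * (G (g i) (k i) m - 1) = 0 := by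
      intro m hm
      have h2 : ∑ i, l (i, v0) * (G (g i) (k i) m - 1) = ∑ x ∈ univ ×ˢ D.divisors,
          (l x * (if x.2 = v0 then G (g x.1) (k x.1) m else 1) -
            l x * (if x.2 = v0 then G (g x.1) (k x.1) 1 else 1)) := by
        rw [sum_product]
        refine sum_congr rfl fun i _ => ?_
        rw [sum_eq_single v0 (fun v _ hv => by simp [hv]) fun h => absurd hv0 h]
        simp [G1, mul_sub]
      rw [h2, sum_sub_distrib, rel v0 hv0 m hm, rel v0 hv0 1 R1, sub_self]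
    refine dedekind (κ := Option ι) (fun o m => o.elim 1 fun i => G (g i) (k i) m) ?_ ?_ ?_ univ
      (fun o => o.elim (-∑ i, l (i, v0)) fun i => l (i, v0)) D (fun m hm => ?_) (some i0)
      (mem_univ _)
    · rintro (_ | i)
      · rfl
      · exact G1 i
    · rintro (_ | i) m n h
      · simp
      · exact CLASS.G_mul' (hg i) m n h
    · rintro (_ | i) (_ | j) h N
      · exact absurd rfl h
      · obtain ⟨p, a, h1, h2, h3⟩ := hne j N
        exact ⟨p, a, h1, h2, fun e => h3 e.symm⟩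
      · exact hne i N
      · exact hsep i j (fun e => h (congrArg some e)) N
    · have h1 := rel2 m hm
      simp only [mul_sub, mul_one, sum_sub_distrib] at h1
      rw [Fintype.sum_option]
      simp only [Option.elim, mul_one]
      linarith
  refine ⟨main, ?_⟩
  rw [← rel 1 (Nat.one_mem_divisors.2 hD.ne') 1 R1]
  exact sum_eq_zero fun x hx => by rw [main x hx, zero_mul]

end Pool.Agent.Lib.LI90
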