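import Pool.Agent.Lib.LI90.A
import Pool.Agent.Lib.LI90.B
import Pool.Agent.Lib.LI90.C
import Pool.Agent.Lib.FAC.B_STAR
import Pool.Agent.Lib.FAC.B_TEND
import Pool.Agent.Lib.ESC.B_COMB
import Pool.Agent.Lib.ESC.B_MULT

/-! The asymptotic linear relation for several functions, and the lonely ray. -/

open Finset Filter Polynomial
open scoped Nat Topology

noncomputable section

namespace Pool.Agent.Lib.LI90

open Pool.Agent.Lib.FAC
open Pool.Agent.Lib.ESC (Comb)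

open STAR in
theorem vanish {ι : Type*} [Fintype ι] {g : ι → ℕ → ℤ} {k : ι → ℕ} {C : ℕ} {P : ℤ[X]} {c : ℕ}
    {r : ι → ℕ → ℝ} (hg : ∀ i, Good (g i) (k i) C) (hP : Base P) (hc : ∀ i, k i + C ≤ c)
    (hC : C ≤ c) (h : ∀ i, Tl (g i) P c (r i)) (a : ι → ℤ)
    (hr : Tail (fun n => ∑ i, a i * g i n) P c fun M => ∑ i, (a i : ℝ) * r i M) :
    ∃ (Y D : ℕ) (U : Finset ℕ) (d L r0 : ℕ) (γ : ℕ → ℕ → ℤ), Comb Y D U ∧ r0.Prime ∧ Y < r0 ∧
      d < r0 ∧ r0 ≤ L ∧ L < 2 * r0 ∧ L ≤ 3 * Y ∧ C < r0 ∧ (∃ u ∈ U, ∃ s ≤ d, γ u s ≠ 0) ∧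
      Tendsto (fun w : ℕ => (w : ℝ) ^ (P.natDegree * r0) * ∑ i, (a i : ℝ) * ∑ v ∈ D.divisors,
        eta (g i) P D U d L γ v w * g i (D / v * w + 1)) atTop (𝓝 0) := by
  classical
  obtain ⟨d, hd⟩ : ∃ d, d = 12 * ((c + 1) * Fintype.card ι) := ⟨_, rfl⟩
  obtain ⟨Y, hY⟩ : ∃ Y, Y = d + (c + 1) + 27 := ⟨_, rfl⟩
  obtain ⟨D, U, hU, -⟩ := ESC.st_COMB ESC.st_MULT Y (by omega)
  obtain ⟨r0, hr0, h1, h2⟩ := Nat.exists_prime_lt_and_le_two_mul Y (by omega)
  obtain ⟨L, hL⟩ : ∃ L, L = r0 + d + (c + 1) := ⟨_, rfl⟩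
  have hD0 : 0 < D := lt_of_lt_of_le (by norm_num) hU.big
  have hUD : ∀ u ∈ U, u ∈ D.divisors := fun u hu =>
    Nat.mem_divisors.2 ⟨by simpa using hU.dvd u hu 1 le_rfl (by omega), hD0.ne'⟩
  have hsz : ∀ i (n : ℕ), 1 ≤ n → |(g i n : ℝ)| ≤ (n : ℝ) ^ c := fun i n hn =>
    ((st_SIZE _ _ _ (hg i)).1 n hn).trans (pow_le_pow_right₀ (by exact_mod_cast hn) (hc i))
  obtain ⟨γ, hγ, hlin⟩ := lin g P c d Y D U L hP hU hd.ge (by omega)
  set R : ℕ → ℝ := fun M => ∑ i, (a i : ℝ) * r i M with hR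
  have hexp : ∀ w, ∑ u ∈ U, ∑ s ∈ range (d + 1), γ u s * R (D / u * w + s) =
      ∑ i, (a i : ℝ) * ∑ v ∈ D.divisors, eta (g i) P D U d L γ v w * g i (D / v * w + 1) +
        ∑ u ∈ U, ∑ s ∈ range (d + 1), γ u s * (R (D / u * w + L) / den P D u s L w) :=
    fun w => exp_comb hg hP h a hU d L γ w (by omega) (by omega)
  have htail : ∀ m', m' ≤ P.natDegree * r0 → Tendsto (fun w : ℕ => ∑ u ∈ U, ∑ s ∈ range (d + 1),
      (γ u s : ℝ) * ((w : ℝ) ^ m' * (R (D / u * w + L) / den P D u s L w))) atTop (𝓝 0) := by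
    intro m' hm'
    have : Tendsto (fun w : ℕ => ∑ u ∈ U, ∑ s ∈ range (d + 1),
        (γ u s : ℝ) * ((w : ℝ) ^ m' * (R (D / u * w + L) / den P D u s L w))) atTop
        (𝓝 (∑ u ∈ U, ∑ s ∈ range (d + 1), (γ u s : ℝ) * 0)) := by
      refine tendsto_finsetSum _ fun u hu => tendsto_finsetSum _ fun s hs => ?_
      have hs' : s < d + 1 := mem_range.1 hs
      refine (st_TEND st_RAT st_POLY _ P c R D u s L m' hP hr (hUD u hu) (by omega)
        ?_).const_mul _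
      have h3 : P.natDegree * (r0 + (c + 1)) ≤ P.natDegree * (L - s) :=
        Nat.mul_le_mul_left _ (by omega)
      have h4 : 1 * (c + 1) ≤ P.natDegree * (c + 1) := Nat.mul_le_mul_right _ hP.1
      rw [mul_add] at h3
      omega
    simpa using this
  obtain ⟨q, hq, hint⟩ := hr.int
  have hI : ∀ᶠ w in atTop, ∑ u ∈ U, ∑ s ∈ range (d + 1), (γ u s : ℝ) * R (D / u * w + s) = 0 := by
    refine int_zero _ q hq (fun w => ?_) ?_
    · choose z hz using hint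
      refine ⟨∑ u ∈ U, ∑ s ∈ range (d + 1), γ u s * z (D / u * w + s), ?_⟩
      push_cast
      simp only [mul_sum, ← hz]
      exact sum_congr rfl fun u _ => sum_congr rfl fun s _ => by ring
    · have h3 : Tendsto (fun w : ℕ => ∑ i, (a i : ℝ) * ∑ v ∈ D.divisors,
          eta (g i) P D U d L γ v w * g i (D / v * w + 1)) atTop
          (𝓝 (∑ i, (a i : ℝ) * ∑ v ∈ D.divisors, 0)) :=
        tendsto_finsetSum _ fun i _ => (tendsto_finsetSum _ fun v _ =>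
          small _ _ (D / v) c (hlin i v) fun w => hsz i _ (by omega)).const_mul _
      have h4 := h3.add (htail 0 (Nat.zero_le _))
      simp only [sum_const_zero, mul_zero, add_zero, pow_zero, one_mul] at h4
      exact h4.congr fun w => (hexp w).symm
  refine ⟨Y, D, U, d, L, r0, γ, hU, hr0, h1, by omega, by omega, by omega, by omega, by omega, hγ,
    ?_⟩
  have h3 := (htail _ le_rfl).neg
  rw [neg_zero] at h3
  refine h3.congr' (hI.mono fun w hw => ?_)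
  have h4 := hexp w
  rw [hw] at h4
  simp only
  rw [eq_neg_of_add_eq_zero_left h4.symm, mul_neg]
  simp only [mul_sum]
  exact congrArg _ (sum_congr rfl fun u _ => sum_congr rfl fun s _ => by ring)

open LEAD in
theorem lonely {P : ℤ[X]} {Y D : ℕ} {U : Finset ℕ} {d L r0 : ℕ} {γ : ℕ → ℕ → ℤ} (hB : Base P)
    (hU : Comb Y D U) (hr : r0.Prime) (hY : Y < r0) (hd : d < r0) (hrL : r0 ≤ L)
    (hL2 : L < 2 * r0) (hL3 : L ≤ 3 * Y) (hγ : ∃ u ∈ U, ∃ s ≤ d, γ u s ≠ 0) :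
    ∃ (Q M : ℤ[X]) (N : (ℕ → ℤ) → ℕ → ℤ[X]) (v1 : ℕ), Q ≠ 0 ∧ M ≠ 0 ∧ v1 ∈ D.divisors ∧
      Q.natDegree ≤ M.natDegree + P.natDegree * r0 ∧
      (∀ g v w, eta g P D U d L γ v w = ev (N g v) w / ev Q w) ∧ ∀ g, N g v1 = C (g r0) * M := by
  classical
  have hD : 0 < D := by have := hU.big; omega
  have hr2 := hr.two_le
  obtain ⟨Q, Num, hQ, hN⟩ := st_POLY P D L hB hD
  have hUD : ∀ u ∈ U, u ∈ D.divisors := fun u hu => by
    have := hU.dvd u hu 1 le_rfl (by omega)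
    exact Nat.mem_divisors.2 ⟨by simpa using this, hD.ne'⟩
  have heta : ∀ g v w, eta g P D U d L γ v w = ev (NN g U d L γ Num v) w / ev Q w := by
    intro g v w
    simp only [FAC.eta, NN, ev_sum, sum_div, ev_C_mul]
    refine sum_congr rfl fun u hu => sum_congr rfl fun t ht => sum_congr rfl fun s hs => ?_
    have ht' := (mem_Icc.1 (mem_filter.1 ht).1).2
    have hs' := (mem_filter.1 hs).2
    have := (hN u (hUD u hu) s t hs'.le ht').2.2 w
    rw [mul_div_assoc _ (ev (Num u s t) w), ← this]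
    push_cast
    ring
  obtain ⟨u0, hu0, s0, hs0, hγ0⟩ := hγ
  obtain ⟨s1, hs1, hmax⟩ := exists_max_image ((range (d + 1)).filter fun s => γ u0 s ≠ 0) id
    ⟨s0, mem_filter.2 ⟨mem_range.2 (by omega), hγ0⟩⟩
  have hs1d : s1 < d + 1 := mem_range.1 (mem_filter.1 hs1).1
  have hγ1 : γ u0 s1 ≠ 0 := (mem_filter.1 hs1).2
  have hN1 := hN u0 (hUD u0 hu0) s1 r0 (by omega) hrL
  have hv1 : u0 * r0 ∈ D.divisors := by
    have := hU.dvd u0 hu0 r0 (by omega) (by omega)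
    exact Nat.mem_divisors.2
      ⟨(mul_dvd_mul_left u0 (dvd_pow_self r0 two_ne_zero)).trans this, hD.ne'⟩
  have hco : (∑ s ∈ range (d + 1) with s < r0, C (γ u0 s) * Num u0 s r0).coeff
      (Num u0 s1 r0).natDegree ≠ 0 := by
    rw [finsetSum_coeff, sum_eq_single_of_mem s1
      (mem_filter.2 ⟨mem_range.2 hs1d, by omega⟩), coeff_C_mul]
    · exact mul_ne_zero hγ1 (leadingCoeff_ne_zero.2 hN1.1)
    · intro s hs hne
      rw [coeff_C_mul]
      by_cases h0 : γ u0 s = 0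
      · simp [h0]
      · have hle : s ≤ s1 := hmax s (mem_filter.2 ⟨(mem_filter.1 hs).1, h0⟩)
        have hlt : s < s1 := lt_of_le_of_ne hle hne
        have h2 := (hN u0 (hUD u0 hu0) s r0 (by omega) hrL).2.1
        have h3 : P.natDegree * (r0 - s1) < P.natDegree * (r0 - s) :=
          Nat.mul_lt_mul_of_pos_left (by omega) hB.1
        have h4 := hN1.2.1
        rw [coeff_eq_zero_of_natDegree_lt (by omega), mul_zero]
  have hge := le_natDegree_of_ne_zero hco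
  have h7 := hN1.2.1
  have h8 : P.natDegree * (r0 - s1) ≤ P.natDegree * r0 := Nat.mul_le_mul_left _ (by omega)
  refine ⟨Q, ∑ s ∈ range (d + 1) with s < r0, C (γ u0 s) * Num u0 s r0,
    fun g v => NN g U d L γ Num v, u0 * r0, hQ, fun h => hco (by rw [h, coeff_zero]), hv1,
    by omega, heta, fun g => ?_⟩
  simp only [NN]
  have hm0 : r0 ∈ (Icc 1 L).filter fun t => u0 * t = u0 * r0 :=
    mem_filter.2 ⟨mem_Icc.2 ⟨by omega, hrL⟩, rfl⟩
  rw [sum_eq_single_of_mem u0 hu0, sum_eq_single_of_mem r0 hm0, mul_sum]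
  · exact sum_congr rfl fun s _ => by rw [C_mul, mul_assoc]
  · intro t ht hne
    exact absurd (ray hU hr hY hL2 hu0 (mem_filter.1 ht).1 (mem_filter.1 ht).2).1 hne
  · intro u hu hne
    exact sum_eq_zero fun t ht =>
      absurd (ray hU hr hY hL2 hu (mem_filter.1 ht).1 (mem_filter.1 ht).2).2 hne

theorem coef_lim (N : ℤ[X]) (δ : ℕ) (h : N.natDegree ≤ δ) :
    Tendsto (fun w : ℕ => ev N w / (w : ℝ) ^ δ) atTop (𝓝 (N.coeff δ : ℝ)) := by
  have h1 : Tendsto (fun w : ℕ => ∑ i ∈ range (δ + 1), (N.coeff i : ℝ) * (1 / (w : ℝ)) ^ (δ - i))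
      atTop (𝓝 (∑ i ∈ range (δ + 1), (N.coeff i : ℝ) * 0 ^ (δ - i))) :=
    tendsto_finsetSum _ fun i _ => (tendsto_one_div_atTop_nhds_zero_nat.pow _).const_mul _
  have h2 : ∑ i ∈ range (δ + 1), (N.coeff i : ℝ) * 0 ^ (δ - i) = N.coeff δ := by
    rw [sum_range_succ, sum_eq_zero fun i hi => by
      rw [zero_pow (by have := mem_range.1 hi; omega), mul_zero]]
    simp
  rw [h2] at h1
  refine h1.congr' ((eventually_gt_atTop 0).mono fun w hw => ?_)
  have hw' : (w : ℝ) ≠ 0 := by positivity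
  simp only
  rw [ev, eval_eq_sum_range' (Nat.lt_succ_of_le h)]
  push_cast
  rw [sum_div]
  refine sum_congr rfl fun i hi => ?_
  obtain ⟨e, rfl⟩ := Nat.exists_eq_add_of_le (Nat.lt_succ_iff.1 (mem_range.1 hi))
  rw [Nat.add_sub_cancel_left, pow_add, one_div_pow]
  field_simp

theorem ev_ne {Q : ℤ[X]} (hQ : Q ≠ 0) : ∀ᶠ w : ℕ in atTop, ev Q w ≠ 0 := by
  have h1 : (Q.coeff Q.natDegree : ℝ) ≠ 0 := Int.cast_ne_zero.2 (leadingCoeff_ne_zero.2 hQ)
  refine ((coef_lim Q _ le_rfl).eventually_ne h1).mono fun w hw h => hw ?_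
  rw [h, zero_div]

end Pool.Agent.Lib.LI90
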