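import Pool.Agent.Lib.LI90.D

/-! Polynomial combinations of multiplicative functions: the assembly. -/

open Finset Filter Polynomial
open scoped Nat Topology

noncomputable section

namespace Pool.Agent.Lib.LI90

open Pool.Agent.Lib.FAC
open Pool.Agent.Lib.ESC (Comb)

theorem good_pow {g : ℕ → ℤ} {k C : ℕ} (hg : Good g k C) (j : ℕ) :
    Good (fun n => (n : ℤ) ^ j * g n) (j + k) C := by
  refine ⟨by simp [hg.one], fun m n h => ?_, fun p a hp ha => ?_⟩
  · simp only [hg.mul m n h]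
    push_cast
    ring
  · have hp0 : (p : ℝ) ≠ 0 := Nat.cast_ne_zero.2 hp.ne_zero
    have e : ((((p ^ a : ℕ) : ℤ) ^ j * g (p ^ a) : ℤ) : ℝ) / (p : ℝ) ^ ((j + k) * a) =
        (g (p ^ a) : ℝ) / (p : ℝ) ^ (k * a) := by
      push_cast
      rw [add_mul, pow_add, ← pow_mul, mul_comm a j, mul_div_mul_left _ _ (pow_ne_zero _ hp0)]
    simp only [e]
    exact hg.near p a hp ha

theorem good_one (C : ℕ) : Good (fun _ => 1) 0 C :=
  ⟨rfl, fun _ _ _ => (one_mul _).symm, fun p a _ _ => by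
    simp only [Int.cast_one, zero_mul, pow_zero, div_one, sub_self, abs_zero]
    positivity⟩

theorem good_ne {g : ℕ → ℤ} {k C p : ℕ} (hg : Good g k C) (hp : p.Prime) (h : C < p) :
    g p ≠ 0 := by
  intro h0
  have h3 := hg.near p 1 hp le_rfl
  rw [pow_one, h0] at h3
  have h4 : (0 : ℝ) < p := by exact_mod_cast hp.pos
  have h5 : (C : ℝ) < p := by exact_mod_cast h
  have h6 : (C : ℝ) / p < 1 := (div_lt_one h4).2 h5
  norm_num at h3
  linarith

theorem ev_mul (A B : ℤ[X]) (w : ℕ) : ev (A * B) w = ev A w * ev B w := by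
  simp only [ev, eval_mul, Int.cast_mul]

theorem ev_C (z : ℤ) (w : ℕ) : ev (C z) w = z := by
  simp only [ev, eval_C]

theorem ev_lin (b j w : ℕ) : ev ((C (b : ℤ) * X + 1) ^ j) w = ((b * w + 1 : ℕ) : ℝ) ^ j := by
  simp [ev]

/-- no relation of top order -/
theorem top {ι : Type*} [Fintype ι] {g : ι → ℕ → ℤ} {k : ι → ℕ} {C : ℕ}
    (hg : ∀ i, Good (g i) (k i) C)
    (hne : ∀ i N, ∃ p a, N < p ∧ p.Prime ∧ G (g i) (k i) (p ^ a) ≠ 1)
    (hsep : ∀ i j, i ≠ j → ∀ N, ∃ p a, N < p ∧ p.Prime ∧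
      G (g i) (k i) (p ^ a) ≠ G (g j) (k j) (p ^ a))
    (D m : ℕ) (hD : 0 < D) (Q N0 : ℤ[X]) (N : ι × ℕ → ℤ[X]) (hQ : Q ≠ 0) (x1 : ι × ℕ)
    (hx1 : x1 ∈ univ ×ˢ D.divisors) (h1 : N x1 ≠ 0) (h2 : Q.natDegree ≤ (N x1).natDegree + m)
    (h0 : Tendsto (fun w : ℕ => (w : ℝ) ^ m * ((ev N0 w + ∑ x ∈ univ ×ˢ D.divisors,
      ev (N x) w * G (g x.1) (k x.1) (D / x.2 * w + 1)) / ev Q w)) atTop (𝓝 0)) : False := by
  classical
  obtain ⟨Z, hZ, hmax⟩ := exists_max_image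
    ((insert N0 ((univ ×ˢ D.divisors).image N)).filter fun F => F ≠ 0) natDegree
    ⟨N x1, mem_filter.2 ⟨mem_insert_of_mem (mem_image_of_mem N hx1), h1⟩⟩
  have hle : ∀ F ∈ insert N0 ((univ ×ˢ D.divisors).image N), F.natDegree ≤ Z.natDegree := by
    intro F hF
    by_cases h : F = 0
    · simp [h]
    · exact hmax F (mem_filter.2 ⟨hF, h⟩)
  have hN : ∀ x ∈ univ ×ˢ D.divisors, (N x).natDegree ≤ Z.natDegree := fun x hx =>
    hle _ (mem_insert_of_mem (mem_image_of_mem N hx))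
  have h3 := (h0.mul (coef_lim Q (Z.natDegree + m) (by have := hN x1 hx1; omega))).sub
    (coef_lim N0 _ (hle _ (mem_insert_self _ _)))
  rw [zero_mul, zero_sub] at h3
  have h4 := ind hg hne hsep D hD (fun x w => ev (N x) w / (w : ℝ) ^ Z.natDegree)
    (fun x => ((N x).coeff Z.natDegree : ℝ)) _ (fun x hx => coef_lim _ _ (hN x hx))
    (h3.congr' (by
      filter_upwards [ev_ne hQ, eventually_gt_atTop 0] with w hw hw0
      have hw' : (w : ℝ) ≠ 0 := by positivity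
      simp only [div_mul_eq_mul_div, ← sum_div]
      rw [pow_add]
      field_simp
      ring))
  have h5 : Z.coeff Z.natDegree ≠ 0 := leadingCoeff_ne_zero.2 (mem_filter.1 hZ).2
  rcases mem_insert.1 (mem_filter.1 hZ).1 with h6 | h6
  · refine h5 ?_
    have h7 := neg_eq_zero.1 h4.2
    rw [← h6] at h7
    exact_mod_cast h7
  · obtain ⟨x, hx, h7⟩ := mem_image.1 h6
    have h8 := h4.1 x hx
    rw [h7] at h8
    exact h5 (by exact_mod_cast h8)

theorem main {ι : Type*} [Fintype ι] {g : ι → ℕ → ℤ} {k : ι → ℕ} {C₀ : ℕ} {P : ℤ[X]}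
    (hg : ∀ i, Good (g i) (k i) C₀)
    (hne : ∀ i N, ∃ p a, N < p ∧ p.Prime ∧ G (g i) (k i) (p ^ a) ≠ 1)
    (hsep : ∀ i j, i ≠ j → ∀ N, ∃ p a, N < p ∧ p.Prime ∧
      G (g i) (k i) (p ^ a) ≠ G (g j) (k j) (p ^ a))
    (hP : Base P) (Q₀ : ℤ[X]) (Q₁ : ι → ℤ[X]) (i1 : ι) (hi1 : Q₁ i1 ≠ 0) :
    Irrational (∑' n : ℕ, ((Q₀.eval (n : ℤ) + ∑ i, (Q₁ i).eval (n : ℤ) * g i n : ℤ) : ℝ) /
      ∏ j ∈ Icc 1 n, ev P j) := by
  classical
  rintro ⟨x, hx⟩
  let q : Option ι → ℤ[X] := fun o => o.elim Q₀ Q₁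
  let f : Option ι → ℕ → ℤ := fun o => o.elim (fun _ => 1) g
  let κ : Option ι → ℕ := fun o => o.elim 0 k
  have hf : ∀ o, Good (f o) (κ o) C₀ := by
    rintro (_ | i)
    · exact good_one C₀
    · exact hg i
  obtain ⟨E, hE⟩ : ∃ E, ∀ o, (q o).natDegree < E :=
    ⟨∑ o, (q o).natDegree + 1, fun o => Nat.lt_succ_of_le
      (single_le_sum (f := fun o => (q o).natDegree) (fun _ _ => Nat.zero_le _) (mem_univ o))⟩
  let g' : Option ι × Fin E → ℕ → ℤ := fun y n => (n : ℤ) ^ (y.2 : ℕ) * f y.1 n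
  let k' : Option ι × Fin E → ℕ := fun y => y.2 + κ y.1
  let a : Option ι × Fin E → ℤ := fun y => (q y.1).coeff y.2
  have hg' : ∀ y, Good (g' y) (k' y) C₀ := fun y => good_pow (hf y.1) y.2
  have hsum : ∀ n : ℕ, Q₀.eval (n : ℤ) + ∑ i, (Q₁ i).eval (n : ℤ) * g i n = ∑ y, a y * g' y n := by
    intro n
    have h1 : ∀ o, ∑ j : Fin E, a (o, j) * g' (o, j) n = (q o).eval (n : ℤ) * f o n := by
      intro o
      rw [eval_eq_sum_range' (hE o), sum_range, sum_mul]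
      exact sum_congr rfl fun j _ => (mul_assoc _ _ _).symm
    rw [Fintype.sum_prod_type, Fintype.sum_option]
    simp only [h1]
    simp [q, f]
  have hc : ∀ y, k' y + C₀ ≤ ∑ j, k' j + C₀ := fun y =>
    Nat.add_le_add_right (single_le_sum (f := k') (fun _ _ => Nat.zero_le _) (mem_univ y)) C₀
  choose r hr using fun y => tl_exists (g' y) P (∑ j, k' j + C₀) hP fun n hn =>
    ((st_SIZE _ _ _ (hg' y)).1 n hn).trans (pow_le_pow_right₀ (by exact_mod_cast hn) (hc y))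
  obtain ⟨Y, D, U, d, L, r0, γ, hU, hr0, h1, h2, h3, h4, h5, h6, hγ, h0⟩ :=
    vanish hg' hP hc (Nat.le_add_left _ _) hr a
      (tail_comb g' P _ r hr a x (by simpa only [hsum] using hx))
  obtain ⟨Q, M, N, v1, hQ, hM, hv1, hdeg, heta, hN⟩ := lonely hP hU hr0 h1 h2 h3 h4 h5 hγ
  have hD : 0 < D := lt_of_lt_of_le (by norm_num) hU.big
  let A : ℕ → ℤ[X] := fun v => C ((D / v : ℕ) : ℤ) * X + 1
  let W : Option ι → ℕ → ℤ[X] := fun o v =>
    ∑ j : Fin E, C (a (o, j)) * (N (g' (o, j)) v * A v ^ k' (o, j))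
  have hW : ∀ o v w, ev (W o v) w * G (f o) (κ o) (D / v * w + 1) / ev Q w =
      ∑ j : Fin E, (a (o, j) : ℝ) *
        (eta (g' (o, j)) P D U d L γ v w * g' (o, j) (D / v * w + 1)) := by
    intro o v w
    have hx0 : ((D / v * w + 1 : ℕ) : ℝ) ≠ 0 := by positivity
    simp only [W, A, LEAD.ev_sum, ev_mul, ev_C, ev_lin, sum_mul, sum_div, heta]
    refine sum_congr rfl fun j _ => ?_
    simp only [G, g', k', Int.cast_mul, Int.cast_pow, Int.cast_natCast, pow_add]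
    field_simp
  have hb : 0 < D / v1 := Nat.div_pos (Nat.divisor_le hv1) (Nat.pos_of_mem_divisors hv1)
  have hb' : ((D / v1 : ℕ) : ℤ) ≠ 0 := Nat.cast_ne_zero.2 hb.ne'
  have hA1 : (A v1).natDegree = 1 := by
    simp only [A]
    rw [← C_1, natDegree_linear hb']
  have hA0 : A v1 ≠ 0 := fun h => by simp [h] at hA1
  have hW1 : W (some i1) v1 =
      M * (C (g i1 r0) * A v1 ^ k i1 * (Q₁ i1).comp (C (r0 : ℤ) * A v1)) := by
    have h7 : (Q₁ i1).comp (C (r0 : ℤ) * A v1) =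
        ∑ j : Fin E, C (a (some i1, j)) * (C (r0 : ℤ) * A v1) ^ (j : ℕ) := by
      rw [comp, eval₂_eq_sum_range' _ (show (Q₁ i1).natDegree < E from hE (some i1)), sum_range]
      rfl
    rw [h7, mul_sum, mul_sum]
    refine sum_congr rfl fun j _ => ?_
    simp only [hN, g', k', f, κ, Option.elim, C_mul, C_pow, pow_add, mul_pow]
    ring
  have hcomp : (Q₁ i1).comp (C (r0 : ℤ) * A v1) ≠ 0 := by
    intro h
    rcases comp_eq_zero_iff.1 h with h7 | ⟨-, h7⟩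
    · exact hi1 h7
    · have h8 := congrArg natDegree h7
      rw [natDegree_C, natDegree_C_mul (Nat.cast_ne_zero.2 hr0.ne_zero), hA1] at h8
      exact one_ne_zero h8
  have hW2 : W (some i1) v1 ≠ 0 := by
    rw [hW1]
    exact mul_ne_zero hM (mul_ne_zero (mul_ne_zero (C_ne_zero.2 (good_ne (hg i1) hr0 h6))
      (pow_ne_zero _ hA0)) hcomp)
  have hW3 : M.natDegree ≤ (W (some i1) v1).natDegree :=
    natDegree_le_of_dvd ⟨_, hW1⟩ hW2
  refine top hg hne hsep D (P.natDegree * r0) hD Q (∑ v ∈ D.divisors, W none v)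
    (fun x => W (some x.1) x.2) hQ (i1, v1) (mem_product.2 ⟨mem_univ _, hv1⟩) hW2
    (by simp only; omega) (h0.congr fun w => congrArg _ ?_)
  have h9 : ∀ o, ∑ j : Fin E, (a (o, j) : ℝ) * ∑ v ∈ D.divisors,
      eta (g' (o, j)) P D U d L γ v w * g' (o, j) (D / v * w + 1) =
      (∑ v ∈ D.divisors, ev (W o v) w * G (f o) (κ o) (D / v * w + 1)) / ev Q w := by
    intro o
    simp only [sum_div, hW, mul_sum]
    exact sum_comm
  rw [Fintype.sum_prod_type, Fintype.sum_option]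
  simp only [h9]
  rw [← sum_div, ← add_div, sum_product, LEAD.ev_sum]
  simp [f, κ, G]

end Pool.Agent.Lib.LI90
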